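import Pool.Agent.L5helper36.Radon.OnlyR

/-! The linear relations satisfied by all Radon vectors. -/

namespace Pool.Agent.Results.MP_c130bd_co.RadonHull

open Finset Pool.Agent.L5helper36.Radon

/-- For `d ≥ 2` and `s ≥ d + 2` the affine hull of the set of all Radon vectors of `s`-point sets
in general position in `ℝ^d` is given by the total count, together with one alternating relation
if `d` is odd and `s` is even. -/
theorem result (d s : ℕ) (hd : 2 ≤ d) (hs : d + 2 ≤ s) :
    (affineSpan ℝ (VR s d) : Set (Fin (s / 2) → ℝ)) =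
      {x | ∑ i, x i = 2 ^ (s - 1) - ∑ k ∈ range (d + 1), ((s - 1).choose k : ℝ) ∧
        (Odd d → Even s → ∑ i : Fin (s / 2), (-1 : ℝ) ^ ((i : ℕ) + 1) * x i = 0)} :=
  affineSpan_VR hd hs

end Pool.Agent.Results.MP_c130bd_co.RadonHull
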